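import Pool.Agent.Leo3.Stmts

namespace Pool.Agent.Leo3.H57

open Pool.Agent.Leo3

private theorem transl (a b c d t : ℤ) :
    hP a (b + t * a) (c + 2 * t * b + t ^ 2 * a) = hP a b c ∧
    hM a (b + t * a) (c + 2 * t * b + t ^ 2 * a) (d + 3 * t * c + 3 * t ^ 2 * b + t ^ 3 * a)
      = hM a b c d ∧
    2 * (b + t * a) ^ 3 - 3 * a * (b + t * a) * (c + 2 * t * b + t ^ 2 * a) +
        a ^ 2 * (d + 3 * t * c + 3 * t ^ 2 * b + t ^ 3 * a)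
      = 2 * b ^ 3 - 3 * a * b * c + a ^ 2 * d := by
  refine ⟨?_, ?_, ?_⟩
  · unfold hP; ring
  · unfold hM; ring
  · ring

private theorem normb (a b c d : ℤ) (ha : 0 < a) :
    ∃ b' c' d' : ℤ, -a < 2 * b' ∧ 2 * b' ≤ a ∧ hP a b' c' = hP a b c ∧
      hM a b' c' d' = hM a b c d ∧
      2 * b' ^ 3 - 3 * a * b' * c' + a ^ 2 * d' = 2 * b ^ 3 - 3 * a * b * c + a ^ 2 * d := by
  obtain ⟨h1, h2, h3⟩ := transl a b c d ((a - 2 * b) / (2 * a))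
  refine ⟨_, _, _, ?_, ?_, h1, h2, h3⟩
  · have h4 := Int.emod_lt_of_pos (a - 2 * b) (show (0 : ℤ) < 2 * a by linarith)
    have h5 := Int.emod_add_mul_ediv (a - 2 * b) (2 * a)
    nlinarith [h4, h5]
  · have h4 := Int.emod_nonneg (a - 2 * b) (show (2 * a : ℤ) ≠ 0 by linarith)
    have h5 := Int.emod_add_mul_ediv (a - 2 * b) (2 * a)
    nlinarith [h4, h5]

theorem qnm : QnmStmt := by
  intro N m a b c d hmN hm7 ha hP0 hP3 hMm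
  -- sign
  obtain ⟨a1, b1, c1, d1, ha1, hP1, hM1⟩ : ∃ a1 b1 c1 d1 : ℤ, 0 < a1 ∧
      hP a1 b1 c1 = hP a b c ∧ hM a1 b1 c1 d1 = hM a b c d := by
    rcases lt_or_gt_of_ne ha with h | h
    · refine ⟨-a, -b, -c, -d, by linarith, ?_, ?_⟩
      · unfold hP; ring
      · unfold hM; ring
    · exact ⟨a, b, c, d, h, rfl, rfl⟩
  -- sign of x0
  obtain ⟨b2, c2, d2, hx2, hP2, hM2⟩ : ∃ b2 c2 d2 : ℤ,
      0 ≤ 2 * b2 ^ 3 - 3 * a1 * b2 * c2 + a1 ^ 2 * d2 ∧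
      hP a1 b2 c2 = hP a b c ∧ hM a1 b2 c2 d2 = hM a b c d := by
    rcases le_or_gt 0 (2 * b1 ^ 3 - 3 * a1 * b1 * c1 + a1 ^ 2 * d1) with h | h
    · exact ⟨b1, c1, d1, h, hP1, hM1⟩
    · refine ⟨-b1, c1, -d1, ?_, ?_, ?_⟩
      · nlinarith [h]
      · rw [← hP1]; unfold hP; ring
      · rw [← hM1]; unfold hM; ring
  obtain ⟨b3, c3, d3, h31, h32, hP3', hM3, hx3⟩ := normb a1 b2 c2 d2 ha1
  have e1 : hP a1 b3 c3 = hP a b c := by rw [hP3', hP2]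
  have e2 : hM a1 b3 c3 d3 = (m : ℤ) := by rw [hM3, hM2, hMm]
  refine ⟨(a1, b3, c3, d3), ?_, e2⟩
  unfold Quad
  simp only
  rw [e1, e2, hx3]
  refine ⟨by linarith, h31, h32, hx2, hP0, ?_, by exact_mod_cast hmN, by omega⟩
  exact_mod_cast hP3

end Pool.Agent.Leo3.H57
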